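import Mathlib

/-!
# Two algebraically independent elements of an algebraically closed field
-/

namespace Pool.Agent.U840.DPC

open IntermediateField

variable {𝕜 : Type*} [Field 𝕜] {Ω : Type*} [Field Ω] [Algebra 𝕜 Ω]

theorem pair_iff (x y : Ω) : AlgebraicIndependent 𝕜 ![x, y] ↔
    Transcendental 𝕜 x ∧ Transcendental (adjoin 𝕜 {x}) y := by
  rw [AlgebraicIndependent.iff_transcendental_adjoin_image (1 : Fin 2)]
  have himg : (![x, y] '' ({1}ᶜ : Set (Fin 2))) = {x} := by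
    ext z
    constructor
    · rintro ⟨i, hi, rfl⟩
      fin_cases i
      · simp
      · simp at hi
    · rintro rfl
      exact ⟨0, by simp, by simp⟩
  rw [himg]
  have hu : AlgebraicIndependent 𝕜 (fun j : {j : Fin 2 // j ≠ 1} => ![x, y] j) ↔
      Transcendental 𝕜 x := by
    have : Subsingleton {j : Fin 2 // j ≠ 1} := by
      constructor
      rintro ⟨i, hi⟩ ⟨j, hj⟩
      apply Subtype.ext
      show i = j
      omega
    rw [algebraicIndependent_singleton_iff (⟨0, by simp⟩ : {j : Fin 2 // j ≠ 1})]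
    rfl
  rw [hu, transcendental_adjoin_iff]
  rfl

theorem pair_symm {x y : Ω} (h : AlgebraicIndependent 𝕜 ![x, y]) :
    AlgebraicIndependent 𝕜 ![y, x] := by
  have := h.comp (Equiv.swap (0 : Fin 2) 1) (Equiv.injective _)
  convert this using 1
  funext i
  fin_cases i <;> simp

variable (𝕜) in
/-- the algebraic closure of `𝕜(s)` in `Ω` -/
noncomputable def cl (s : Ω) : IntermediateField 𝕜 Ω :=
  (algebraicClosure (adjoin 𝕜 {s}) Ω).restrictScalars 𝕜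

theorem mem_cl {s x : Ω} : x ∈ cl 𝕜 s ↔ IsAlgebraic (adjoin 𝕜 {s}) x := by
  unfold cl
  rw [mem_restrictScalars]
  exact mem_algebraicClosure_iff

theorem self_mem_cl (s : Ω) : s ∈ cl 𝕜 s := by
  rw [mem_cl]
  exact isAlgebraic_algebraMap (⟨s, mem_adjoin_simple_self 𝕜 s⟩ : adjoin 𝕜 {s})

theorem adjoin_le_cl (s : Ω) : adjoin 𝕜 {s} ≤ cl 𝕜 s := by
  rw [adjoin_le_iff]
  intro x hx
  rw [Set.mem_singleton_iff] at hx
  subst hx
  exact self_mem_cl _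

/-- `cl 𝕜 s` is algebraically closed in `Ω` -/
theorem mem_cl_of_isAlgebraic {s x : Ω} (h : IsAlgebraic (cl 𝕜 s) x) : x ∈ cl 𝕜 s := by
  rw [mem_cl]
  let _ : Algebra (adjoin 𝕜 {s}) (cl 𝕜 s) := (inclusion (adjoin_le_cl s)).toAlgebra
  have : IsScalarTower (adjoin 𝕜 {s}) (cl 𝕜 s) Ω := IsScalarTower.of_algebraMap_eq fun _ => rfl
  have : Algebra.IsAlgebraic (adjoin 𝕜 {s}) (cl 𝕜 s) := by
    constructor
    intro y
    have hy := mem_cl.mp y.2
    exact (isAlgebraic_algebraMap_iff (algebraMap (cl 𝕜 s) Ω).injective).mp hy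
  exact h.restrictScalars (adjoin 𝕜 {s})

theorem root_mem_cl [IsAlgClosed Ω] {s a : Ω} (ha : a ∈ cl 𝕜 s) {n : ℕ} (hn : n ≠ 0) :
    ∃ b ∈ cl 𝕜 s, b ^ n = a := by
  obtain ⟨b, hb⟩ := IsAlgClosed.exists_pow_nat_eq a (Nat.pos_of_ne_zero hn)
  refine ⟨b, mem_cl_of_isAlgebraic ?_, hb⟩
  have h1 : IsAlgebraic (cl 𝕜 s) (b ^ n) := by
    rw [hb]
    exact isAlgebraic_algebraMap (⟨a, ha⟩ : cl 𝕜 s)
  exact IsAlgebraic.of_pow (Nat.pos_of_ne_zero hn) h1

/-- a transcendental element over `𝕜(s)` is transcendental over `cl 𝕜 s` -/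
theorem transcendental_cl {s t : Ω} (h : Transcendental (adjoin 𝕜 {s}) t) :
    Transcendental (cl 𝕜 s) t := by
  intro h1
  exact h (mem_cl.mp (mem_cl_of_isAlgebraic h1))

theorem transcendental_cl_iff_notMem {s t : Ω} : Transcendental (cl 𝕜 s) t ↔ t ∉ cl 𝕜 s := by
  constructor
  · intro h h1
    exact h (isAlgebraic_algebraMap (⟨t, h1⟩ : cl 𝕜 s))
  · intro h h1
    exact h (mem_cl_of_isAlgebraic h1)

/-- an element of `cl 𝕜 s` transcendental over `𝕜` and one transcendental over `cl 𝕜 s` are algebraically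
independent -/
theorem pair_of_cl {s x y : Ω} (hx : x ∈ cl 𝕜 s) (hx' : Transcendental 𝕜 x) (hy : y ∉ cl 𝕜 s) :
    AlgebraicIndependent 𝕜 ![x, y] := by
  rw [pair_iff]
  refine ⟨hx', fun h => hy ?_⟩
  apply mem_cl_of_isAlgebraic
  have hle : adjoin 𝕜 {x} ≤ cl 𝕜 s := by
    rw [adjoin_le_iff]
    intro z hz
    rw [Set.mem_singleton_iff] at hz
    subst hz
    exact hx
  obtain ⟨p, hp, hpy⟩ := h
  refine ⟨p.map (inclusion hle).toRingHom, ?_, ?_⟩
  · rw [Polynomial.map_ne_zero_iff]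
    · exact hp
    · exact (inclusion hle).toRingHom.injective
  · rw [← Polynomial.eval_map_algebraMap, Polynomial.map_map]
    rw [← Polynomial.eval_map_algebraMap] at hpy
    exact hpy

theorem notMem_cl {s t : Ω} (h : AlgebraicIndependent 𝕜 ![s, t]) : t ∉ cl 𝕜 s := by
  rw [← transcendental_cl_iff_notMem]
  exact transcendental_cl ((pair_iff s t).mp h).2

/-- an algebraic element over `𝕜` is in `𝕜` -/
theorem mem_bot_of_isAlgebraic [IsAlgClosed 𝕜] {x : Ω} (h : IsAlgebraic 𝕜 x) : ∃ c : 𝕜, algebraMap 𝕜 Ω c = x := by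
  have h1 : (minpoly 𝕜 x).degree = 1 :=
    IsAlgClosed.degree_eq_one_of_irreducible 𝕜 (minpoly.irreducible h.isIntegral)
  obtain ⟨c, hc⟩ := minpoly.mem_range_of_degree_eq_one 𝕜 x h1
  exact ⟨c, hc⟩





variable (𝕜) in
/-- `x` is the product of an element of `cl 𝕜 s` and an element of `cl 𝕜 t` -/
def Split (s t x : Ω) : Prop := ∃ α ∈ cl 𝕜 s, ∃ β ∈ cl 𝕜 t, x = α * β

theorem Split.left {s t x : Ω} (h : x ∈ cl 𝕜 s) : Split 𝕜 s t x := ⟨x, h, 1, one_mem _, by ring⟩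

theorem Split.right {s t x : Ω} (h : x ∈ cl 𝕜 t) : Split 𝕜 s t x := ⟨1, one_mem _, x, h, by ring⟩

theorem Split.mul {s t x y : Ω} (hx : Split 𝕜 s t x) (hy : Split 𝕜 s t y) : Split 𝕜 s t (x * y) := by
  obtain ⟨α, hα, β, hβ, rfl⟩ := hx
  obtain ⟨α', hα', β', hβ', rfl⟩ := hy
  exact ⟨α * α', mul_mem hα hα', β * β', mul_mem hβ hβ', by ring⟩

theorem Split.pow {s t x : Ω} (hx : Split 𝕜 s t x) (n : ℕ) : Split 𝕜 s t (x ^ n) := by
  obtain ⟨α, hα, β, hβ, rfl⟩ := hx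
  exact ⟨α ^ n, pow_mem hα n, β ^ n, pow_mem hβ n, by ring⟩

theorem Split.prod {s t : Ω} {ι : Type*} (S : Finset ι) (x : ι → Ω) (h : ∀ i ∈ S, Split 𝕜 s t (x i)) :
    Split 𝕜 s t (∏ i ∈ S, x i) := by
  classical
  induction S using Finset.induction_on with
  | empty => simpa using Split.left (t := t) (one_mem (cl 𝕜 s))
  | insert a S ha ih =>
    rw [Finset.prod_insert ha]
    exact (h a (Finset.mem_insert_self _ _)).mul (ih fun i hi => h i (Finset.mem_insert_of_mem hi))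

theorem Split.multiset_prod {s t : Ω} (S : Multiset Ω) (h : ∀ x ∈ S, Split 𝕜 s t x) :
    Split 𝕜 s t S.prod := by
  induction S using Multiset.induction_on with
  | empty => simpa using Split.left (t := t) (one_mem (cl 𝕜 s))
  | cons a S ih =>
    rw [Multiset.prod_cons]
    exact (h a (Multiset.mem_cons_self _ _)).mul (ih fun i hi => h i (Multiset.mem_cons_of_mem hi))

theorem Split.root [IsAlgClosed Ω] {s t x : Ω} (h : Split 𝕜 s t x) {n : ℕ} (hn : n ≠ 0) :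
    ∃ w ∈ cl 𝕜 s ⊔ cl 𝕜 t, w ^ n = x := by
  obtain ⟨α, hα, β, hβ, rfl⟩ := h
  obtain ⟨a, ha, ha'⟩ := root_mem_cl hα hn
  obtain ⟨b, hb, hb'⟩ := root_mem_cl hβ hn
  refine ⟨a * b, mul_mem ?_ ?_, by rw [mul_pow, ha', hb']⟩
  · exact (le_sup_left : cl 𝕜 s ≤ cl 𝕜 s ⊔ cl 𝕜 t) ha
  · exact (le_sup_right : cl 𝕜 t ≤ cl 𝕜 s ⊔ cl 𝕜 t) hb

theorem exists_two {s t : Ω} (hst : AlgebraicIndependent 𝕜 ![s, t]) {ρ₁ ρ₂ : Ω} (h₁ : ρ₁ ∈ cl 𝕜 s)
    (h₂ : ρ₂ ∈ cl 𝕜 s) :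
    ∃ z ∈ cl 𝕜 s ⊔ cl 𝕜 t, z ∉ cl 𝕜 s ∧ Split 𝕜 s t (z - ρ₁) ∧ Split 𝕜 s t (z - ρ₂) := by
  have ht := notMem_cl hst
  have hs' : cl 𝕜 s ≤ cl 𝕜 s ⊔ cl 𝕜 t := le_sup_left
  have ht' : cl 𝕜 t ≤ cl 𝕜 s ⊔ cl 𝕜 t := le_sup_right
  by_cases h : ρ₁ = ρ₂
  · subst h
    refine ⟨ρ₁ + t, add_mem (hs' h₁) (ht' (self_mem_cl t)), ?_, ?_, ?_⟩
    · intro h
      apply ht
      have := sub_mem h h₁
      simpa using this
    · rw [add_sub_cancel_left]
      exact Split.right (self_mem_cl t)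
    · rw [add_sub_cancel_left]
      exact Split.right (self_mem_cl t)
  · have hne : ρ₂ - ρ₁ ≠ 0 := sub_ne_zero.mpr fun h' => h h'.symm
    have hmem : ρ₂ - ρ₁ ∈ cl 𝕜 s := sub_mem h₂ h₁
    refine ⟨ρ₁ + (ρ₂ - ρ₁) * t, add_mem (hs' h₁) (mul_mem (hs' hmem) (ht' (self_mem_cl t))), ?_,
      ⟨ρ₂ - ρ₁, hmem, t, self_mem_cl t, by ring⟩,
      ⟨ρ₂ - ρ₁, hmem, t - 1, sub_mem (self_mem_cl t) (one_mem _), by ring⟩⟩
    intro h
    apply ht
    have h3 := div_mem (sub_mem h h₁) hmem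
    rw [add_sub_cancel_left, mul_div_cancel_left₀ _ hne] at h3
    exact h3

theorem isAlgClosed_cl [IsAlgClosed Ω] (s : Ω) : IsAlgClosed (cl 𝕜 s) := by
  apply IsAlgClosed.of_exists_root
  intro p hp hirr
  have hdeg : (p.map (algebraMap (cl 𝕜 s) Ω)).degree ≠ 0 := by
    rw [Polynomial.degree_map]
    exact (Polynomial.degree_pos_of_irreducible hirr).ne'
  obtain ⟨x, hx⟩ := IsAlgClosed.exists_root _ hdeg
  have hx' : Polynomial.aeval x p = 0 := by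
    rw [Polynomial.IsRoot, Polynomial.eval_map_algebraMap] at hx
    exact hx
  have hmem : x ∈ cl 𝕜 s := mem_cl_of_isAlgebraic ⟨p, hp.ne_zero, hx'⟩
  refine ⟨⟨x, hmem⟩, ?_⟩
  apply (algebraMap (cl 𝕜 s) Ω).injective
  rw [map_zero, ← hx']
  exact (Polynomial.aeval_algebraMap_apply Ω (⟨x, hmem⟩ : cl 𝕜 s) p).symm

/-- polynomials over `cl 𝕜 s` of total degree at most two have split values at a common point -/
theorem exists_split_values [IsAlgClosed Ω] {s t : Ω} (hst : AlgebraicIndependent 𝕜 ![s, t])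
    {ι : Type*} (S : Finset ι) (p : ι → Polynomial (cl 𝕜 s))
    (hdeg : ∑ i ∈ S, (p i).natDegree ≤ 2) :
    ∃ z ∈ cl 𝕜 s ⊔ cl 𝕜 t, z ∉ cl 𝕜 s ∧ ∀ i ∈ S, Split 𝕜 s t (Polynomial.aeval z (p i)) := by
  classical
  have _ := isAlgClosed_cl (𝕜 := 𝕜) s
  let R : Multiset (cl 𝕜 s) := ∑ i ∈ S, (p i).roots
  have hR : R.card ≤ 2 := by
    simp only [R]
    rw [Multiset.card_sum]
    exact le_trans (Finset.sum_le_sum fun i _ => Polynomial.card_roots' (p i)) hdeg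
  have hρ : ∃ ρ₁ ρ₂ : cl 𝕜 s, ∀ x ∈ R, x = ρ₁ ∨ x = ρ₂ := by
    rcases Nat.lt_or_ge R.card 1 with h0 | h0
    · have : R = 0 := Multiset.card_eq_zero.mp (by omega)
      exact ⟨0, 0, by rw [this]; simp⟩
    · rcases Nat.lt_or_ge R.card 2 with h1 | h1
      · obtain ⟨a, ha⟩ := Multiset.card_eq_one.mp (by omega : R.card = 1)
        exact ⟨a, a, by rw [ha]; simp⟩
      · obtain ⟨a, b, hab⟩ := Multiset.card_eq_two.mp (by omega : R.card = 2)
        refine ⟨a, b, ?_⟩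
        rw [hab]
        intro x hx
        simpa using hx
  obtain ⟨ρ₁, ρ₂, hρ⟩ := hρ
  obtain ⟨z, hz, hz', h1, h2⟩ := exists_two hst ρ₁.2 ρ₂.2
  refine ⟨z, hz, hz', fun i hi => ?_⟩
  have hle : (p i).roots ≤ R := Finset.single_le_sum (f := fun i => (p i).roots)
    (fun _ _ => zero_le) hi
  have hfac := (IsAlgClosed.splits (p i)).eq_prod_roots
  rw [hfac, map_mul, Polynomial.aeval_C]
  refine (Split.left ((p i).leadingCoeff).2).mul ?_
  rw [map_multiset_prod, Multiset.map_map]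
  apply Split.multiset_prod
  intro x hx
  obtain ⟨r, hr, rfl⟩ := Multiset.mem_map.mp hx
  have hval : (Polynomial.aeval z ∘ fun a : cl 𝕜 s => Polynomial.X - Polynomial.C a) r =
      z - (r : Ω) := by
    simp
  rw [hval]
  rcases hρ r (Multiset.mem_of_le hle hr) with h | h
  · rw [h]; exact h1
  · rw [h]; exact h2


end Pool.Agent.U840.DPC
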