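import Mathlib

/-!
# Surfaces dominated by products of curves: definitions

`k` is a field.

* `IsPlaneCurve f d`: `f ≠ 0` is a form of degree `d ≥ 1` in three variables over `k`; it defines the plane
  curve `f = 0` of degree `d`.
* `IsProductOfCurves K₁ K₂`: the subfields `K₁` and `K₂` of `Ω ⊇ k` are function fields of curves over `k`,
  and they are independent, so that `K₁ ⊔ K₂` is the function field of the product of the two curves.
* `CoverDominated n f A`: there is a dominant rational map from a product of two curves to the plane such that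
  for every family of exponents `a ∈ A` the function `∏ i, f i (x, y, 1) ^ a i` becomes an `n`-th power on the
  product of the two curves. So the product of the two curves dominates the cover of the plane which is
  obtained by adjoining the `n`-th roots of all these functions.
-/

namespace Pool.Agent.U840.DPC

open MvPolynomial

variable {k : Type} [Field k]

/-- `f ≠ 0` is a form of degree `d ≥ 1` in three variables -/
structure IsPlaneCurve (f : MvPolynomial (Fin 3) k) (d : ℕ) : Prop where
  pos : 0 < d
  homogeneous : f.IsHomogeneous d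
  ne_zero : f ≠ 0

/-- `K₁` and `K₂` are the function fields of two curves over `k`, and `K₁ ⊔ K₂` is the function field of their
product -/
structure IsProductOfCurves {Ω : Type} [Field Ω] [Algebra k Ω] (K₁ K₂ : IntermediateField k Ω) :
    Prop where
  fg₁ : K₁.FG
  fg₂ : K₂.FG
  curves : ∃ u ∈ K₁, ∃ v ∈ K₂, AlgebraicIndependent k ![u, v] ∧
    (∀ c ∈ K₁, IsAlgebraic (IntermediateField.adjoin k {u}) c) ∧
    (∀ c ∈ K₂, IsAlgebraic (IntermediateField.adjoin k {v}) c)

/-- a product of two curves dominates the cover of the plane obtained by adjoining the `n`-th roots of the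
functions `∏ i, f i (x, y, 1) ^ a i` for all `a ∈ A` -/
def CoverDominated {ι : Type} [Fintype ι] (n : ℕ) (f : ι → MvPolynomial (Fin 3) k)
    (A : Set (ι → ℕ)) : Prop :=
  ∃ (Ω : Type) (_ : Field Ω) (_ : Algebra k Ω) (K₁ K₂ : IntermediateField k Ω),
    IsProductOfCurves K₁ K₂ ∧ ∃ x ∈ K₁ ⊔ K₂, ∃ y ∈ K₁ ⊔ K₂, AlgebraicIndependent k ![x, y] ∧
      ∀ a ∈ A, ∃ z ∈ K₁ ⊔ K₂, z ^ n = ∏ i, aeval ![x, y, 1] (f i) ^ a i

end Pool.Agent.U840.DPC
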