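import Pool.Agent.U840.DPC.Defs
import Pool.Agent.U840.DPC.Gen

/-!
# From a generic point to a dominant map
-/

namespace Pool.Agent.U840.DPC

open MvPolynomial IntermediateField

variable {𝕜 : Type} [Field 𝕜] {Ω : Type} [Field Ω] [Algebra 𝕜 Ω]

theorem exists_finset_of_mem_sup {s t x : Ω} (h : x ∈ cl 𝕜 s ⊔ cl 𝕜 t) :
    ∃ T : Finset Ω, (T : Set Ω) ⊆ (cl 𝕜 s : Set Ω) ∪ cl 𝕜 t ∧ x ∈ adjoin 𝕜 (T : Set Ω) := by
  have h1 : x ∈ adjoin 𝕜 ((cl 𝕜 s : Set Ω) ∪ cl 𝕜 t) := by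
    rw [adjoin_union, adjoin_self, adjoin_self]
    exact h
  exact exists_finset_of_mem_adjoin h1

theorem exists_curves {s t : Ω} (hst : AlgebraicIndependent 𝕜 ![s, t]) {R : Set Ω} (hR : R.Finite)
    (h : ∀ x ∈ R, x ∈ cl 𝕜 s ⊔ cl 𝕜 t) :
    ∃ K₁ K₂ : IntermediateField 𝕜 Ω, IsProductOfCurves K₁ K₂ ∧ ∀ x ∈ R, x ∈ K₁ ⊔ K₂ := by
  classical
  have hall : ∀ x : R, ∃ T : Finset Ω, (T : Set Ω) ⊆ (cl 𝕜 s : Set Ω) ∪ cl 𝕜 t ∧
      (x : Ω) ∈ adjoin 𝕜 (T : Set Ω) := fun x => exists_finset_of_mem_sup (h x x.2)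
  choose TT hTT hxT using hall
  have := hR.fintype
  let T : Finset Ω := (Finset.univ.biUnion TT) ∪ {s, t}
  have hT : (T : Set Ω) ⊆ (cl 𝕜 s : Set Ω) ∪ cl 𝕜 t := by
    intro a ha
    simp only [T, Finset.coe_union, Finset.coe_insert, Finset.coe_singleton, Set.mem_union,
      Set.mem_insert_iff, Set.mem_singleton_iff, Finset.mem_coe, Finset.mem_biUnion] at ha
    rcases ha with ⟨x, -, hx⟩ | (h | h)
    · exact hTT x hx
    · rw [h]; exact Or.inl (self_mem_cl s)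
    · rw [h]; exact Or.inr (self_mem_cl t)
  let T₁ : Finset Ω := T.filter (· ∈ cl 𝕜 s)
  let T₂ : Finset Ω := T.filter (· ∈ cl 𝕜 t)
  have hle₁ : adjoin 𝕜 (T₁ : Set Ω) ≤ cl 𝕜 s := by
    rw [adjoin_le_iff]
    intro a ha
    exact (Finset.mem_filter.mp (Finset.mem_coe.mp ha)).2
  have hle₂ : adjoin 𝕜 (T₂ : Set Ω) ≤ cl 𝕜 t := by
    rw [adjoin_le_iff]
    intro a ha
    exact (Finset.mem_filter.mp (Finset.mem_coe.mp ha)).2
  have hsup : adjoin 𝕜 (T : Set Ω) ≤ adjoin 𝕜 (T₁ : Set Ω) ⊔ adjoin 𝕜 (T₂ : Set Ω) := by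
    rw [← adjoin_union]
    apply adjoin.mono
    intro a ha
    rcases hT ha with h | h
    · exact Or.inl (Finset.mem_coe.mpr (Finset.mem_filter.mpr ⟨Finset.mem_coe.mp ha, h⟩))
    · exact Or.inr (Finset.mem_coe.mpr (Finset.mem_filter.mpr ⟨Finset.mem_coe.mp ha, h⟩))
  refine ⟨adjoin 𝕜 (T₁ : Set Ω), adjoin 𝕜 (T₂ : Set Ω), ⟨⟨T₁, rfl⟩, ⟨T₂, rfl⟩,
    s, ?_, t, ?_, hst, ?_, ?_⟩, ?_⟩
  · apply subset_adjoin
    simp only [T₁, T, Finset.coe_filter]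
    exact ⟨by simp, self_mem_cl s⟩
  · apply subset_adjoin
    simp only [T₂, T, Finset.coe_filter]
    exact ⟨by simp, self_mem_cl t⟩
  · intro c hc
    exact mem_cl.mp (hle₁ hc)
  · intro c hc
    exact mem_cl.mp (hle₂ hc)
  · intro x hx
    apply hsup
    refine adjoin.mono 𝕜 _ _ ?_ (hxT ⟨x, hx⟩)
    intro a ha
    simp only [T, Finset.coe_union]
    refine Or.inl ?_
    rw [Finset.mem_coe, Finset.mem_biUnion]
    exact ⟨⟨x, hx⟩, Finset.mem_univ _, ha⟩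

/-- a generic point of the plane over the product field at which the forms are `n`-th powers up to powers of a
fixed element gives a dominated cover -/
theorem dominated_of_point {s t : Ω} (hst : AlgebraicIndependent 𝕜 ![s, t]) {ι : Type} [Fintype ι]
    {n : ℕ} {f : ι → MvPolynomial (Fin 3) 𝕜} {d e : ι → ℕ}
    (hf : ∀ i, (f i).IsHomogeneous (d i)) {P : Fin 3 → Ω} (hP : ∀ k, P k ∈ cl 𝕜 s ⊔ cl 𝕜 t)
    (hgen : Generic 𝕜 P) {w : Ω} (hw : w ∈ cl 𝕜 s ⊔ cl 𝕜 t) (hw0 : w ≠ 0) {r : ι → Ω}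
    (hr : ∀ i, r i ∈ cl 𝕜 s ⊔ cl 𝕜 t) (hrn : ∀ i, (r i) ^ n = w ^ e i * aeval P (f i)) :
    CoverDominated n f {a | n ∣ ∑ i, d i * a i ∧ n ∣ ∑ i, e i * a i} := by
  classical
  obtain ⟨h2, hind⟩ := hgen.affine
  obtain ⟨K₁, K₂, hK, hmem⟩ := exists_curves hst
    (R := Set.range P ∪ (Set.range r ∪ {w}))
    ((Set.finite_range P).union ((Set.finite_range r).union (Set.finite_singleton w))) (by
      rintro x (⟨k, rfl⟩ | ⟨i, rfl⟩ | hx)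
      · exact hP k
      · exact hr i
      · rw [Set.mem_singleton_iff.mp hx]
        exact hw)
  have hP' : ∀ k, P k ∈ K₁ ⊔ K₂ := fun k => hmem _ (Or.inl ⟨k, rfl⟩)
  have hr' : ∀ i, r i ∈ K₁ ⊔ K₂ := fun i => hmem _ (Or.inr (Or.inl ⟨i, rfl⟩))
  have hw' : w ∈ K₁ ⊔ K₂ := hmem _ (Or.inr (Or.inr rfl))
  have hval : ∀ i, aeval ![P 0 / P 2, P 1 / P 2, 1] (f i) = (P 2)⁻¹ ^ d i * aeval P (f i) := by
    intro i
    rw [← aeval_smul (hf i)]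
    congr 2
    funext k
    fin_cases k
    · simp [div_eq_inv_mul]
    · simp [div_eq_inv_mul]
    · simp [h2]
  refine ⟨Ω, inferInstance, inferInstance, K₁, K₂, hK, P 0 / P 2, div_mem (hP' 0) (hP' 2),
    P 1 / P 2, div_mem (hP' 1) (hP' 2), hind, ?_⟩
  rintro a ⟨⟨m, hm⟩, ⟨l, hl⟩⟩
  refine ⟨(∏ i, r i ^ a i) / (w ^ l * P 2 ^ m),
    div_mem (prod_mem fun i _ => pow_mem (hr' i) _) (mul_mem (pow_mem hw' _) (pow_mem (hP' 2) _)), ?_⟩
  have e1 : (∏ i, r i ^ a i) ^ n = w ^ (n * l) * ∏ i, aeval P (f i) ^ a i := by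
    rw [← Finset.prod_pow]
    have e2 : ∀ i, (r i ^ a i) ^ n = w ^ (e i * a i) * aeval P (f i) ^ a i := by
      intro i
      rw [← pow_mul, mul_comm, pow_mul, hrn, mul_pow, ← pow_mul]
    simp only [e2]
    rw [Finset.prod_mul_distrib, Finset.prod_pow_eq_pow_sum, hl]
  simp only [hval, mul_pow, Finset.prod_mul_distrib]
  rw [div_pow, e1, mul_pow]
  simp only [← pow_mul]
  rw [Finset.prod_pow_eq_pow_sum, hm, inv_pow, mul_comm m n, mul_comm l n]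
  field_simp

end Pool.Agent.U840.DPC
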