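import Pool.Agent.U840.DPC.Line

/-!
# Two plane curves meet
-/

namespace Pool.Agent.U840.DPC

open MvPolynomial

variable {𝕜 : Type*} [Field 𝕜]

theorem aeval_eq_eval' (p : Fin 3 → 𝕜) (f : MvPolynomial (Fin 3) 𝕜) : aeval p f = eval p f := rfl

theorem eval_zero_of_homogeneous {f : MvPolynomial (Fin 3) 𝕜} {d : ℕ} (hd : 0 < d)
    (hf : f.IsHomogeneous d) : eval 0 f = 0 := by
  have h := aeval_smul hf (0 : 𝕜) (0 : Fin 3 → 𝕜)
  rw [zero_pow hd.ne', zero_mul] at h
  simpa [aeval_def] using h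

/-- put the first `j` variables equal to `0` -/
noncomputable def kill (j : ℕ) : MvPolynomial (Fin 3) 𝕜 →ₐ[𝕜] MvPolynomial (Fin 3) 𝕜 :=
  aeval (fun i : Fin 3 => if i.val < j then 0 else X i)

theorem kill_X (j : ℕ) (i : Fin 3) :
    kill (𝕜 := 𝕜) j (X i) = if i.val < j then 0 else X i := by
  unfold kill; rw [aeval_X]

theorem kill_kill (j : ℕ) (p : MvPolynomial (Fin 3) 𝕜) : kill (j + 1) (kill j p) = kill (j + 1) p := by
  have h : (kill (𝕜 := 𝕜) (j + 1)).comp (kill j) = kill (j + 1) := by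
    apply algHom_ext
    intro i
    rw [AlgHom.comp_apply, kill_X, kill_X]
    split_ifs with h1 h2 h3
    · simp
    · omega
    · rw [kill_X, if_pos h3]
    · rw [kill_X, if_neg h3]
  exact DFunLike.congr_fun h p

theorem ker_kill_lt (j : ℕ) (hj : j < 3) : RingHom.ker (kill (𝕜 := 𝕜) j) < RingHom.ker (kill (𝕜 := 𝕜) (j + 1)) := by
  refine lt_of_le_of_ne ?_ ?_
  · intro p hp
    rw [RingHom.mem_ker] at hp ⊢
    rw [← kill_kill, hp, map_zero]
  · intro h
    have h1 : (X ⟨j, hj⟩ : MvPolynomial (Fin 3) 𝕜) ∈ RingHom.ker (kill (𝕜 := 𝕜) (j + 1)) := by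
      rw [RingHom.mem_ker, kill_X, if_pos (by simp)]
    rw [← h, RingHom.mem_ker, kill_X, if_neg (by simp)] at h1
    exact X_ne_zero _ h1

/-- two forms of positive degree in three variables have a common zero -/
theorem exists_common_zero [IsAlgClosed 𝕜] {f g : MvPolynomial (Fin 3) 𝕜} {d e : ℕ} (hd : 0 < d) (he : 0 < e)
    (hf : f.IsHomogeneous d) (hg : g.IsHomogeneous e) :
    ∃ p : Fin 3 → 𝕜, p ≠ 0 ∧ eval p f = 0 ∧ eval p g = 0 := by
  classical
  by_contra hcon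
  push Not at hcon
  have hz : zeroLocus 𝕜 (Ideal.span ((({f, g} : Finset (MvPolynomial (Fin 3) 𝕜)) :
      Set (MvPolynomial (Fin 3) 𝕜)))) = {0} := by
    rw [zeroLocus_span]
    ext p
    simp only [Finset.coe_insert, Finset.coe_singleton, Set.mem_insert_iff, Set.mem_singleton_iff,
      forall_eq_or_imp, forall_eq]
    constructor
    · rintro ⟨h1, h2⟩
      by_contra hp
      rw [aeval_eq_eval'] at h1 h2
      exact hcon p hp h1 h2
    · rintro rfl
      show aeval 0 f = 0 ∧ aeval 0 g = 0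
      rw [aeval_eq_eval', aeval_eq_eval']
      exact ⟨eval_zero_of_homogeneous hd hf, eval_zero_of_homogeneous he hg⟩
  have hrad := vanishingIdeal_zeroLocus_eq_radical (K := 𝕜) (Ideal.span
    ((({f, g} : Finset (MvPolynomial (Fin 3) 𝕜)) : Set (MvPolynomial (Fin 3) 𝕜))))
  rw [hz] at hrad
  have hmin : vanishingIdeal 𝕜 ({0} : Set (Fin 3 → 𝕜)) ∈ (Ideal.span
    ((({f, g} : Finset (MvPolynomial (Fin 3) 𝕜)) : Set (MvPolynomial (Fin 3) 𝕜)))).minimalPrimes := by
    refine ⟨⟨inferInstance, ?_⟩, ?_⟩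
    · rw [hrad]
      exact Ideal.le_radical
    · rintro Q ⟨hQ, hle⟩ _
      rw [hrad]
      exact hQ.radical_le_iff.mpr hle
  have hle := Ideal.height_le_card_of_mem_minimalPrimes_span_finset hmin
  have hcard : ({f, g} : Finset (MvPolynomial (Fin 3) 𝕜)).card ≤ 2 := Finset.card_le_two
  have h3 : RingHom.ker (kill (𝕜 := 𝕜) 3) ≤ vanishingIdeal 𝕜 ({0} : Set (Fin 3 → 𝕜)) := by
    intro p hp
    rw [mem_vanishingIdeal_singleton_iff]
    rw [RingHom.mem_ker] at hp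
    have h : (aeval (0 : Fin 3 → 𝕜)).comp (kill (𝕜 := 𝕜) 3) = aeval (R := 𝕜) (0 : Fin 3 → 𝕜) := by
      apply algHom_ext
      intro i
      rw [AlgHom.comp_apply, kill_X, if_pos i.2]
      simp
    rw [← h, AlgHom.comp_apply, hp, map_zero]
  have hp0 : (RingHom.ker (kill (𝕜 := 𝕜) 0)).IsPrime := RingHom.ker_isPrime _
  have hp1 : (RingHom.ker (kill (𝕜 := 𝕜) 1)).IsPrime := RingHom.ker_isPrime _
  have hp2 : (RingHom.ker (kill (𝕜 := 𝕜) 2)).IsPrime := RingHom.ker_isPrime _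
  have hp3 : (RingHom.ker (kill (𝕜 := 𝕜) 3)).IsPrime := RingHom.ker_isPrime _
  have l0 := Ideal.height_strict_mono_of_isPrime (ker_kill_lt (𝕜 := 𝕜) 0 (by norm_num))
  have l1 := Ideal.height_strict_mono_of_isPrime (ker_kill_lt (𝕜 := 𝕜) 1 (by norm_num))
  have l2 := Ideal.height_strict_mono_of_isPrime (ker_kill_lt (𝕜 := 𝕜) 2 (by norm_num))
  have l3 := Ideal.height_mono h3
  have l4 : (vanishingIdeal 𝕜 ({0} : Set (Fin 3 → 𝕜))).height ≤ 2 := by
    refine hle.trans ?_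
    exact_mod_cast hcard
  have e0 : (1 : ℕ∞) ≤ (RingHom.ker (kill (𝕜 := 𝕜) 1)).height := Order.one_le_iff_pos.mpr (lt_of_le_of_lt zero_le l0)
  have e1 : (2 : ℕ∞) ≤ (RingHom.ker (kill (𝕜 := 𝕜) 2)).height := by
    have := Order.add_one_le_of_lt (lt_of_le_of_lt e0 l1)
    simpa [one_add_one_eq_two] using this
  have e2 : (3 : ℕ∞) ≤ (RingHom.ker (kill (𝕜 := 𝕜) 3)).height := by
    have := Order.add_one_le_of_lt (lt_of_le_of_lt e1 l2)
    rw [two_add_one_eq_three] at this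
    exact this
  have := e2.trans (l3.trans l4)
  exact absurd this (by norm_num)

end Pool.Agent.U840.DPC
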