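import Pool.Agent.U840.DPC.Dom

/-!
# Pencils of lines through a fixed point
-/

namespace Pool.Agent.U840.DPC

open MvPolynomial IntermediateField

variable {𝕜 : Type} [Field 𝕜]

/-- the point `v` has multiplicity at least `j` on `f = 0`, for `j ≤ 2` -/
def MultGe (f : MvPolynomial (Fin 3) 𝕜) (v : Fin 3 → 𝕜) : ℕ → Prop
  | 0 => True
  | 1 => eval v f = 0
  | 2 => eval v f = 0 ∧ ∀ k, eval v (pderiv k f) = 0
  | _ => False

theorem aeval_up {E : Type*} [Field E] [Algebra 𝕜 E] (f : MvPolynomial (Fin 3) 𝕜) (v : Fin 3 → 𝕜) :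
    aeval (up v : Fin 3 → E) f = algebraMap 𝕜 E (eval v f) := by
  have h := aeval_algebraMap_apply E v f
  exact h

theorem natDegree_reflect_le {E : Type*} [Field E] {g : Polynomial E} {d j : ℕ}
    (hg : g.natDegree ≤ d) (h : ∀ i < j, g.coeff i = 0) :
    (Polynomial.reflect d g).natDegree ≤ d - j := by
  rw [Polynomial.natDegree_le_iff_coeff_eq_zero]
  intro k hk
  rw [Polynomial.coeff_reflect]
  by_cases hkd : k ≤ d
  · rw [Polynomial.revAt_le hkd]
    apply h
    omega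
  · rw [Polynomial.revAt_eq_self_of_lt (by omega)]
    exact Polynomial.coeff_eq_zero_of_natDegree_lt (by omega)

theorem natDegree_lineP_of_mult [Infinite 𝕜] {E : Type*} [Field E] [Algebra 𝕜 E]
    {f : MvPolynomial (Fin 3) 𝕜} {d : ℕ} (hf : f.IsHomogeneous d) {v : Fin 3 → 𝕜} {j : ℕ}
    (h : MultGe f v j) (u : Fin 3 → E) : (lineP f u (up v)).natDegree ≤ d - j := by
  rw [← eval_reflect_lineP hf (up v) u]
  apply natDegree_reflect_le (natDegree_lineP_le hf _ _)
  intro i hi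
  have h0 : eval v f = 0 → (lineP f (up v) u).coeff 0 = 0 := by
    intro h'
    rw [coeff_zero_lineP, aeval_up, h', map_zero]
  have h1 : (∀ k, eval v (pderiv k f) = 0) → (lineP f (up v) u).coeff 1 = 0 := by
    intro h'
    rw [coeff_one_lineP]
    apply Finset.sum_eq_zero
    intro k _
    rw [aeval_up, h' k, map_zero, mul_zero]
  match j, h with
  | 0, _ => omega
  | 1, h =>
    interval_cases i
    exact h0 h
  | 2, h =>
    interval_cases i
    · exact h0 h.1
    · exact h1 h.2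

theorem exists_basis {v : Fin 3 → 𝕜} (hv : v ≠ 0) : ∃ w₀ w₁ : Fin 3 → 𝕜, det3 w₀ w₁ v ≠ 0 := by
  obtain ⟨k, hk⟩ := Function.ne_iff.mp hv
  fin_cases k
  · exact ⟨![0, 1, 0], ![0, 0, 1], by simpa [det3] using hk⟩
  · exact ⟨![0, 0, 1], ![1, 0, 0], by simpa [det3] using hk⟩
  · exact ⟨![1, 0, 0], ![0, 1, 0], by simpa [det3] using hk⟩

/-- bounds for the degrees on the lines through `v` hold over all extensions -/
theorem natDegree_lineP_transfer [Infinite 𝕜] {E : Type} [Field E] [Algebra 𝕜 E]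
    {f : MvPolynomial (Fin 3) 𝕜} {v : Fin 3 → 𝕜} {e : ℕ}
    (h : ∀ u : Fin 3 → 𝕜, (lineP f u v).natDegree ≤ e) (u : Fin 3 → E) :
    (lineP f u (up v)).natDegree ≤ e := by
  let G : Polynomial (MvPolynomial (Fin 3) 𝕜) :=
    aeval (fun i => Polynomial.C (X i) + Polynomial.X * Polynomial.C (C (v i))) f
  have key : ∀ {E' : Type} [Field E'] [Algebra 𝕜 E'] (u' : Fin 3 → E'),
      G.map (aeval u' : MvPolynomial (Fin 3) 𝕜 →ₐ[𝕜] E').toRingHom = lineP f u' (up v) := by
    intro E' _ _ u'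
    have h1 := aeval_unique ((Polynomial.mapAlgHom (aeval u' : MvPolynomial (Fin 3) 𝕜 →ₐ[𝕜] E')).comp
      (aeval (R := 𝕜) (fun i => (Polynomial.C (X i) + Polynomial.X * Polynomial.C (C (v i)) :
        Polynomial (MvPolynomial (Fin 3) 𝕜)))))
    have h2 := DFunLike.congr_fun h1 f
    simp only [AlgHom.comp_apply, Polynomial.coe_mapAlgHom] at h2
    change Polynomial.map _ G = _
    change Polynomial.map _ G = _ at h2
    refine h2.trans ?_
    unfold lineP
    congr 2
    funext i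
    simp [up, algHom_C]
  rw [Polynomial.natDegree_le_iff_coeff_eq_zero]
  intro m hm
  have hG : G.coeff m = 0 := by
    apply MvPolynomial.funext
    intro x
    rw [map_zero]
    have h1 : (G.map (aeval x : MvPolynomial (Fin 3) 𝕜 →ₐ[𝕜] 𝕜).toRingHom).coeff m = 0 := by
      rw [key x]
      have h2 : lineP f x (up v) = lineP f x v := rfl
      rw [h2]
      exact Polynomial.coeff_eq_zero_of_natDegree_lt (lt_of_le_of_lt (h x) hm)
    rw [Polynomial.coeff_map] at h1
    exact h1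
  rw [← key u, Polynomial.coeff_map, hG, map_zero]

/-- the general case: a line over `cl 𝕜 s` on which the forms have at most two zeros -/
theorem of_line {Ω : Type} [Field Ω] [Algebra 𝕜 Ω] [IsAlgClosed Ω] {s t : Ω}
    (hst : AlgebraicIndependent 𝕜 ![s, t]) {ι : Type} [Fintype ι]
    {n : ℕ} (hn : n ≠ 0) {f : ι → MvPolynomial (Fin 3) 𝕜} {d : ι → ℕ}
    (hf : ∀ i, (f i).IsHomogeneous (d i)) {b τ : Fin 3 → cl 𝕜 s}
    (hgen : ∀ z : Ω, z ∉ cl 𝕜 s → Generic 𝕜 (fun i => (b i : Ω) + z * (τ i : Ω)))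
    (hdeg : ∑ i, (lineP (f i) b τ).natDegree ≤ 2) :
    CoverDominated n f {a | n ∣ ∑ i, d i * a i} := by
  obtain ⟨z, hz, hz', hsplit⟩ := exists_split_values hst Finset.univ (fun i => lineP (f i) b τ) hdeg
  have hval : ∀ i, aeval (fun k => (b k : Ω) + z * (τ k : Ω)) (f i) =
      Polynomial.aeval z (lineP (f i) b τ) := by
    intro i
    rw [← Polynomial.eval_map_algebraMap, aeval_map_lineP, eval_lineP]
    rfl
  have hroot : ∀ i, ∃ w ∈ cl 𝕜 s ⊔ cl 𝕜 t, w ^ n = aeval (fun k => (b k : Ω) + z * (τ k : Ω)) (f i) := by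
    intro i
    rw [hval]
    exact (hsplit i (Finset.mem_univ i)).root hn
  choose r hr hrn using hroot
  have h := dominated_of_point hst (e := fun _ => 0) hf (P := fun k => (b k : Ω) + z * (τ k : Ω))
    (fun k => by
      have h1 : cl 𝕜 s ≤ cl 𝕜 s ⊔ cl 𝕜 t := le_sup_left
      exact add_mem (h1 (b k).2) (mul_mem hz (h1 (τ k).2)))
    (hgen z hz') (one_mem _) one_ne_zero hr (fun i => by rw [hrn i, pow_zero, one_mul])
  simpa using h

/-- three zeros on the lines through a fixed point, or two zeros -/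
theorem pencil [IsAlgClosed 𝕜] {Ω : Type} [Field Ω] [Algebra 𝕜 Ω] [IsAlgClosed Ω] {s t : Ω}
    (hst : AlgebraicIndependent 𝕜 ![s, t]) {ι : Type} [Fintype ι]
    {n : ℕ} (hn : n ≠ 0) {f : ι → MvPolynomial (Fin 3) 𝕜} {d : ι → ℕ}
    (hf : ∀ i, (f i).IsHomogeneous (d i)) {v : Fin 3 → 𝕜} (hv : v ≠ 0)
    (hdeg : ∀ u : Fin 3 → cl 𝕜 s, ∑ i, (lineP (f i) u (up v)).natDegree ≤ 2) :
    CoverDominated n f {a | n ∣ ∑ i, d i * a i} := by
  obtain ⟨w₀, w₁, hdet⟩ := exists_basis hv
  have hs : Transcendental 𝕜 s := ((pair_iff s t).mp hst).1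
  refine of_line hst hn hf (b := fun i => up w₀ i + (⟨s, self_mem_cl s⟩ : cl 𝕜 s) * up w₁ i)
    (τ := up v) ?_ (hdeg _)
  intro z hz
  exact generic_pencil hdet (pair_of_cl (self_mem_cl s) hs hz)

end Pool.Agent.U840.DPC
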