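import Pool.Agent.U840.DPC.Pencil

/-!
# Lines with three zeros
-/

namespace Pool.Agent.U840.DPC

open MvPolynomial IntermediateField

variable {𝕜 : Type} [Field 𝕜] {Ω : Type} [Field Ω] [Algebra 𝕜 Ω]

theorem exists_three {s t : Ω} (hst : AlgebraicIndependent 𝕜 ![s, t]) {ρ₁ ρ₂ ρ₃ : Ω}
    (h₁ : ρ₁ ∈ cl 𝕜 s) (h₂ : ρ₂ ∈ cl 𝕜 s) (h₃ : ρ₃ ∈ cl 𝕜 s) :
    ∃ z ∈ cl 𝕜 s ⊔ cl 𝕜 t, ∃ w ∈ cl 𝕜 s ⊔ cl 𝕜 t, z ∉ cl 𝕜 s ∧ w ≠ 0 ∧ Split 𝕜 s t (w * (z - ρ₁)) ∧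
      Split 𝕜 s t (w * (z - ρ₂)) ∧ Split 𝕜 s t (w * (z - ρ₃)) := by
  have two : ∀ {a b : Ω}, a ∈ cl 𝕜 s → b ∈ cl 𝕜 s → (∀ x, x = ρ₁ ∨ x = ρ₂ ∨ x = ρ₃ → x = a ∨ x = b) →
      ∃ z ∈ cl 𝕜 s ⊔ cl 𝕜 t, ∃ w ∈ cl 𝕜 s ⊔ cl 𝕜 t, z ∉ cl 𝕜 s ∧ w ≠ 0 ∧ Split 𝕜 s t (w * (z - ρ₁)) ∧
        Split 𝕜 s t (w * (z - ρ₂)) ∧ Split 𝕜 s t (w * (z - ρ₃)) := by
    intro a b ha hb hab
    obtain ⟨z, hz, hz', hza, hzb⟩ := exists_two hst ha hb
    have h : ∀ x, x = ρ₁ ∨ x = ρ₂ ∨ x = ρ₃ → Split 𝕜 s t (1 * (z - x)) := by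
      intro x hx
      rw [one_mul]
      rcases hab x hx with rfl | rfl
      · exact hza
      · exact hzb
    exact ⟨z, hz, 1, one_mem _, hz', one_ne_zero, h _ (Or.inl rfl), h _ (Or.inr (Or.inl rfl)),
      h _ (Or.inr (Or.inr rfl))⟩
  by_cases h12 : ρ₁ = ρ₂
  · refine two h₁ h₃ ?_
    rintro x (rfl | rfl | rfl)
    · exact Or.inl rfl
    · exact Or.inl h12.symm
    · exact Or.inr rfl
  by_cases h13 : ρ₁ = ρ₃
  · refine two h₁ h₂ ?_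
    rintro x (rfl | rfl | rfl)
    · exact Or.inl rfl
    · exact Or.inr rfl
    · exact Or.inl h13.symm
  by_cases h23 : ρ₂ = ρ₃
  · refine two h₁ h₂ ?_
    rintro x (rfl | rfl | rfl)
    · exact Or.inl rfl
    · exact Or.inr rfl
    · exact Or.inr h23.symm
  have hs' : cl 𝕜 s ≤ cl 𝕜 s ⊔ cl 𝕜 t := le_sup_left
  have ht' : cl 𝕜 t ≤ cl 𝕜 s ⊔ cl 𝕜 t := le_sup_right
  have ht := notMem_cl hst
  have e12 : ρ₁ - ρ₂ ≠ 0 := sub_ne_zero.mpr h12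
  have e13 : ρ₁ - ρ₃ ≠ 0 := sub_ne_zero.mpr h13
  have e23 : ρ₂ - ρ₃ ≠ 0 := sub_ne_zero.mpr h23
  set κ : Ω := (ρ₂ - ρ₃) / (ρ₁ - ρ₂) with hκ
  have hκm : κ ∈ cl 𝕜 s := div_mem (sub_mem h₂ h₃) (sub_mem h₁ h₂)
  have hκ0 : κ ≠ 0 := div_ne_zero e23 e12
  have hκ' : (ρ₁ - ρ₂) * κ = ρ₂ - ρ₃ := by
    rw [hκ]
    field_simp
  have hw0 : t + κ ≠ 0 := by
    intro h
    apply ht
    have h1 : t = -κ := by linear_combination h
    rw [h1]
    exact neg_mem hκm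
  have hz1 : (t + κ) * ((ρ₃ * t + ρ₁ * κ) / (t + κ) - ρ₁) = (ρ₃ - ρ₁) * t := by
    field_simp
    ring
  have hz2 : (t + κ) * ((ρ₃ * t + ρ₁ * κ) / (t + κ) - ρ₂) = (ρ₃ - ρ₂) * (t - 1) := by
    field_simp
    linear_combination hκ'
  have hz3 : (t + κ) * ((ρ₃ * t + ρ₁ * κ) / (t + κ) - ρ₃) = (ρ₁ - ρ₃) * κ := by
    field_simp
    ring
  refine ⟨(ρ₃ * t + ρ₁ * κ) / (t + κ), ?_, t + κ, ?_, ?_, hw0, ?_, ?_, ?_⟩
  · exact div_mem (add_mem (mul_mem (hs' h₃) (ht' (self_mem_cl t))) (mul_mem (hs' h₁) (hs' hκm)))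
      (add_mem (ht' (self_mem_cl t)) (hs' hκm))
  · exact add_mem (ht' (self_mem_cl t)) (hs' hκm)
  · intro hz
    apply ht
    set z := (ρ₃ * t + ρ₁ * κ) / (t + κ) with hzdef
    have h0 : z - ρ₃ ≠ 0 := by
      intro h
      rw [h, mul_zero] at hz3
      exact mul_ne_zero e13 hκ0 hz3.symm
    have h1 : t = (ρ₁ - ρ₃) * κ / (z - ρ₃) - κ := by
      rw [← hz3]
      field_simp
      ring
    rw [h1]
    exact sub_mem (div_mem (mul_mem (sub_mem h₁ h₃) hκm) (sub_mem hz h₃)) hκm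
  · rw [hz1]
    exact ⟨ρ₃ - ρ₁, sub_mem h₃ h₁, t, self_mem_cl t, rfl⟩
  · rw [hz2]
    exact ⟨ρ₃ - ρ₂, sub_mem h₃ h₂, t - 1, sub_mem (self_mem_cl t) (one_mem _), rfl⟩
  · rw [hz3]
    exact Split.left (mul_mem (sub_mem h₁ h₃) hκm)

/-- polynomials over `cl 𝕜 s` of total degree at most three -/
theorem exists_split_values_three [IsAlgClosed Ω] {s t : Ω} (hst : AlgebraicIndependent 𝕜 ![s, t])
    {ι : Type*} (S : Finset ι) (p : ι → Polynomial (cl 𝕜 s))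
    (hdeg : ∑ i ∈ S, (p i).natDegree ≤ 3) :
    ∃ z ∈ cl 𝕜 s ⊔ cl 𝕜 t, ∃ w ∈ cl 𝕜 s ⊔ cl 𝕜 t, z ∉ cl 𝕜 s ∧ w ≠ 0 ∧
      ∀ i ∈ S, Split 𝕜 s t (w ^ (p i).natDegree * Polynomial.aeval z (p i)) := by
  classical
  have _ := isAlgClosed_cl (𝕜 := 𝕜) s
  let R : Multiset (cl 𝕜 s) := ∑ i ∈ S, (p i).roots
  have hR : R.card ≤ 3 := by
    simp only [R]
    rw [Multiset.card_sum]
    exact le_trans (Finset.sum_le_sum fun i _ => Polynomial.card_roots' (p i)) hdeg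
  have hρ : ∃ ρ₁ ρ₂ ρ₃ : cl 𝕜 s, ∀ x ∈ R, x = ρ₁ ∨ x = ρ₂ ∨ x = ρ₃ := by
    rcases Nat.lt_or_ge R.card 1 with h0 | h0
    · have : R = 0 := Multiset.card_eq_zero.mp (by omega)
      exact ⟨0, 0, 0, by rw [this]; simp⟩
    · rcases Nat.lt_or_ge R.card 2 with h1 | h1
      · obtain ⟨a, ha⟩ := Multiset.card_eq_one.mp (by omega : R.card = 1)
        exact ⟨a, a, a, by rw [ha]; simp⟩
      · rcases Nat.lt_or_ge R.card 3 with h2 | h2
        · obtain ⟨a, b, hab⟩ := Multiset.card_eq_two.mp (by omega : R.card = 2)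
          refine ⟨a, b, b, ?_⟩
          rw [hab]
          intro x hx
          simpa using hx
        · obtain ⟨a, b, c, habc⟩ := Multiset.card_eq_three.mp (by omega : R.card = 3)
          refine ⟨a, b, c, ?_⟩
          rw [habc]
          intro x hx
          simpa using hx
  obtain ⟨ρ₁, ρ₂, ρ₃, hρ⟩ := hρ
  obtain ⟨z, hz, w, hw, hz', hw0, h1, h2, h3⟩ := exists_three hst ρ₁.2 ρ₂.2 ρ₃.2
  refine ⟨z, hz, w, hw, hz', hw0, fun i hi => ?_⟩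
  have hle : (p i).roots ≤ R := Finset.single_le_sum (f := fun i => (p i).roots)
    (fun _ _ => zero_le) hi
  have hfac := (IsAlgClosed.splits (p i)).eq_prod_roots
  have hcard : (p i).roots.card = (p i).natDegree := (IsAlgClosed.splits (p i)).natDegree_eq_card_roots.symm
  have hval : Polynomial.aeval z (p i) = ((p i).leadingCoeff : Ω) *
      (((p i).roots.map fun r : cl 𝕜 s => (z - (r : Ω))).prod) := by
    conv_lhs => rw [hfac]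
    rw [map_mul, Polynomial.aeval_C, map_multiset_prod, Multiset.map_map]
    congr 2
    apply Multiset.map_congr rfl
    intro r _
    simp
  have hprod : w ^ (p i).natDegree * (((p i).roots.map fun r : cl 𝕜 s => (z - (r : Ω))).prod) =
      (((p i).roots.map fun r : cl 𝕜 s => w * (z - (r : Ω))).prod) := by
    rw [Multiset.prod_map_mul, Multiset.map_const', Multiset.prod_replicate, hcard]
  rw [hval, mul_left_comm, hprod]
  refine (Split.left ((p i).leadingCoeff).2).mul ?_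
  apply Split.multiset_prod
  intro x hx
  obtain ⟨r, hr, rfl⟩ := Multiset.mem_map.mp hx
  rcases hρ r (Multiset.mem_of_le hle hr) with h | h | h
  · rw [h]; exact h1
  · rw [h]; exact h2
  · rw [h]; exact h3

/-- a line over `cl 𝕜 s` on which the forms have at most three zeros -/
theorem of_line_three [IsAlgClosed Ω] {s t : Ω}
    (hst : AlgebraicIndependent 𝕜 ![s, t]) {ι : Type} [Fintype ι]
    {n : ℕ} (hn : n ≠ 0) {f : ι → MvPolynomial (Fin 3) 𝕜} {d : ι → ℕ}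
    (hf : ∀ i, (f i).IsHomogeneous (d i)) {b τ : Fin 3 → cl 𝕜 s}
    (hgen : ∀ z : Ω, z ∉ cl 𝕜 s → Generic 𝕜 (fun i => (b i : Ω) + z * (τ i : Ω)))
    (hdeg : ∑ i, (lineP (f i) b τ).natDegree ≤ 3) :
    CoverDominated n f {a | n ∣ ∑ i, d i * a i ∧ n ∣ ∑ i, (lineP (f i) b τ).natDegree * a i} := by
  obtain ⟨z, hz, w, hw, hz', hw0, hsplit⟩ :=
    exists_split_values_three hst Finset.univ (fun i => lineP (f i) b τ) hdeg
  have hval : ∀ i, aeval (fun k => (b k : Ω) + z * (τ k : Ω)) (f i) =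
      Polynomial.aeval z (lineP (f i) b τ) := by
    intro i
    rw [← Polynomial.eval_map_algebraMap, aeval_map_lineP, eval_lineP]
    rfl
  have hroot : ∀ i, ∃ r ∈ cl 𝕜 s ⊔ cl 𝕜 t, r ^ n =
      w ^ (lineP (f i) b τ).natDegree * aeval (fun k => (b k : Ω) + z * (τ k : Ω)) (f i) := by
    intro i
    rw [hval]
    exact (hsplit i (Finset.mem_univ i)).root hn
  choose r hr hrn using hroot
  exact dominated_of_point hst (e := fun i => (lineP (f i) b τ).natDegree) hf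
    (P := fun k => (b k : Ω) + z * (τ k : Ω))
    (fun k => by
      have h1 : cl 𝕜 s ≤ cl 𝕜 s ⊔ cl 𝕜 t := le_sup_left
      exact add_mem (h1 (b k).2) (mul_mem hz (h1 (τ k).2)))
    (hgen z hz') hw hw0 hr hrn

theorem CoverDominated.mono {ι : Type} [Fintype ι] {n : ℕ} {f : ι → MvPolynomial (Fin 3) 𝕜}
    {A B : Set (ι → ℕ)} (hAB : A ⊆ B) (h : CoverDominated n f B) : CoverDominated n f A := by
  obtain ⟨Ω, i1, i2, K₁, K₂, hK, x, hx, y, hy, hxy, h⟩ := h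
  exact ⟨Ω, i1, i2, K₁, K₂, hK, x, hx, y, hy, hxy, fun a ha => h a (hAB ha)⟩

theorem pencil_three [IsAlgClosed 𝕜] [IsAlgClosed Ω] {s t : Ω}
    (hst : AlgebraicIndependent 𝕜 ![s, t]) {ι : Type} [Fintype ι]
    {n : ℕ} (hn : n ≠ 0) {f : ι → MvPolynomial (Fin 3) 𝕜} {d : ι → ℕ}
    (hf : ∀ i, (f i).IsHomogeneous (d i)) {v : Fin 3 → 𝕜} (hv : v ≠ 0) {e : ι → ℕ}
    (hdeg : ∀ i, ∀ u : Fin 3 → 𝕜, (lineP (f i) u v).natDegree ≤ e i) (he : ∑ i, e i ≤ 3) :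
    CoverDominated n f {a | n ∣ ∑ i, d i * a i ∧ n ∣ ∑ i, e i * a i} := by
  classical
  obtain ⟨w₀, w₁, hdet⟩ := exists_basis hv
  have hs : Transcendental 𝕜 s := ((pair_iff s t).mp hst).1
  let b : Fin 3 → cl 𝕜 s := fun i => up w₀ i + (⟨s, self_mem_cl s⟩ : cl 𝕜 s) * up w₁ i
  have hgen : ∀ z : Ω, z ∉ cl 𝕜 s → Generic 𝕜 (fun i => (b i : Ω) + z * ((up v : Fin 3 → cl 𝕜 s) i : Ω)) := by
    intro z hz
    exact generic_pencil hdet (pair_of_cl (self_mem_cl s) hs hz)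
  have hle : ∀ i, (lineP (f i) b (up v)).natDegree ≤ e i := fun i =>
    natDegree_lineP_transfer (hdeg i) b
  by_cases hex : ∀ i, (lineP (f i) b (up v)).natDegree = e i
  · have h := of_line_three hst hn hf hgen (by
      rw [Finset.sum_congr rfl fun i _ => hex i]
      exact he)
    simpa only [hex] using h
  · push Not at hex
    obtain ⟨i₀, hi₀⟩ := hex
    have hlt : ∑ i, (lineP (f i) b (up v)).natDegree < ∑ i, e i :=
      Finset.sum_lt_sum (fun i _ => hle i) ⟨i₀, Finset.mem_univ _, lt_of_le_of_ne (hle i₀) hi₀⟩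
    refine CoverDominated.mono ?_ (of_line hst hn hf hgen (by omega))
    rintro a ⟨ha, -⟩
    exact ha

end Pool.Agent.U840.DPC
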