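import Pool.Agent.U840.DPC.Quartic
import Pool.Agent.U840.DPC.Three

/-!
# Covers of the plane dominated by products of two curves
-/

namespace Pool.Agent.U840.DPC

open MvPolynomial IntermediateField

variable {k : Type} [Field k]

theorem exists_field (k : Type) [Field k] :
    ∃ (Ω : Type) (_ : Field Ω) (_ : Algebra k Ω) (_ : IsAlgClosed Ω) (s t : Ω),
      AlgebraicIndependent k ![s, t] := by
  let φ : MvPolynomial (Fin 2) k →ₐ[k] AlgebraicClosure (FractionRing (MvPolynomial (Fin 2) k)) :=
    (IsScalarTower.toAlgHom k (FractionRing (MvPolynomial (Fin 2) k))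
      (AlgebraicClosure (FractionRing (MvPolynomial (Fin 2) k)))).comp
    (IsScalarTower.toAlgHom k (MvPolynomial (Fin 2) k) (FractionRing (MvPolynomial (Fin 2) k)))
  have hφ : Function.Injective φ := by
    intro x y hxy
    have h1 := (algebraMap (FractionRing (MvPolynomial (Fin 2) k))
      (AlgebraicClosure (FractionRing (MvPolynomial (Fin 2) k)))).injective hxy
    exact IsFractionRing.injective (MvPolynomial (Fin 2) k)
      (FractionRing (MvPolynomial (Fin 2) k)) h1
  have h := (MvPolynomial.algebraicIndependent_X (Fin 2) k).map' hφ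
  have h2 : AlgebraicIndependent k ![φ (X 0), φ (X 1)] := by
    have h3 : (φ ∘ X : Fin 2 → _) = ![φ (X 0), φ (X 1)] := by
      funext i
      fin_cases i <;> rfl
    rw [← h3]
    exact h
  exact ⟨AlgebraicClosure (FractionRing (MvPolynomial (Fin 2) k)), inferInstance, inferInstance,
    inferInstance, φ (X 0), φ (X 1), h2⟩

theorem sum_sub {ι : Type} [Fintype ι] {d j : ι → ℕ} (h : ∀ i, j i ≤ d i) :
    ∑ i, (d i - j i) + ∑ i, j i = ∑ i, d i := by
  rw [← Finset.sum_add_distrib]
  apply Finset.sum_congr rfl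
  intro i _
  exact Nat.sub_add_cancel (h i)

/-- two zeros on the lines through `v` -/
theorem small_branch [IsAlgClosed k] {ι : Type} [Fintype ι] {n : ℕ} (hn : n ≠ 0)
    {f : ι → MvPolynomial (Fin 3) k} {d : ι → ℕ} (hf : ∀ i, (f i).IsHomogeneous (d i))
    {v : Fin 3 → k} (hv : v ≠ 0) {e : ι → ℕ}
    (hdeg : ∀ i, ∀ u : Fin 3 → k, (lineP (f i) u v).natDegree ≤ e i) (he : ∑ i, e i ≤ 2) :
    CoverDominated n f {a | n ∣ ∑ i, d i * a i} := by
  obtain ⟨Ω, _, _, _, s, t, hst⟩ := exists_field k
  refine pencil hst hn hf hv fun u => ?_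
  exact le_trans (Finset.sum_le_sum fun i _ => natDegree_lineP_transfer (hdeg i) u) he

/-- three zeros on the lines through `v` -/
theorem small_branch_three [IsAlgClosed k] {ι : Type} [Fintype ι] {n : ℕ} (hn : n ≠ 0)
    {f : ι → MvPolynomial (Fin 3) k} {d : ι → ℕ} (hf : ∀ i, (f i).IsHomogeneous (d i))
    {v : Fin 3 → k} (hv : v ≠ 0) {e : ι → ℕ}
    (hdeg : ∀ i, ∀ u : Fin 3 → k, (lineP (f i) u v).natDegree ≤ e i) (he : ∑ i, e i ≤ 3) :
    CoverDominated n f {a | n ∣ ∑ i, d i * a i ∧ n ∣ ∑ i, e i * a i} := by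
  obtain ⟨Ω, _, _, _, s, t, hst⟩ := exists_field k
  exact pencil_three hst hn hf hv hdeg he

/-- total degree at most four -/
theorem total_four [IsAlgClosed k] {ι : Type} [Fintype ι] {n : ℕ} (hn : n ≠ 0)
    {f : ι → MvPolynomial (Fin 3) k} {d : ι → ℕ} (hf : ∀ i, IsPlaneCurve (f i) (d i))
    (hd : ∑ i, d i ≤ 4) : CoverDominated n f {a | n ∣ ∑ i, d i * a i} := by
  classical
  obtain ⟨Ω, _, _, _, s, t, hst⟩ := exists_field k
  have hhom : ∀ i, (f i).IsHomogeneous (d i) := fun i => (hf i).homogeneous
  by_cases htwo : ∃ i₀ i₁ : ι, i₀ ≠ i₁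
  · obtain ⟨i₀, i₁, hne⟩ := htwo
    obtain ⟨v, hv, hv₀, hv₁⟩ := exists_common_zero (hf i₀).pos (hf i₁).pos (hhom i₀) (hhom i₁)
    let j : ι → ℕ := fun i => (if i = i₀ then 1 else 0) + (if i = i₁ then 1 else 0)
    have hmult : ∀ i, MultGe (f i) v (j i) := by
      intro i
      by_cases h : i = i₀
      · subst h
        simpa [j, hne, MultGe] using hv₀
      · by_cases h' : i = i₁
        · subst h'
          simpa [j, h, MultGe] using hv₁
        · simp [j, h, h', MultGe]
    have hjd : ∀ i, j i ≤ d i := by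
      intro i
      have := (hf i).pos
      by_cases h : i = i₀
      · subst h
        simp [j, hne]
        omega
      · simp only [j, h, if_false]
        split_ifs <;> omega
    refine pencil hst hn hhom hv fun u => ?_
    have h3 := sum_sub hjd
    have h4 : ∑ i, j i = 2 := by
      simp only [j]
      rw [Finset.sum_add_distrib, Finset.sum_ite_eq', Finset.sum_ite_eq', if_pos (Finset.mem_univ _),
        if_pos (Finset.mem_univ _)]
    have h5 := Finset.sum_le_sum fun i (_ : i ∈ Finset.univ) => natDegree_lineP_of_mult (hhom i) (hmult i) u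
    omega
  · push Not at htwo
    by_cases hne : Nonempty ι
    · obtain ⟨i₀⟩ := hne
      have hsum : ∀ g : ι → ℕ, ∑ i, g i = g i₀ := fun g =>
        Fintype.sum_eq_single i₀ fun i hi => absurd (htwo i i₀) hi
      rw [hsum] at hd
      by_cases hd3 : d i₀ ≤ 3
      · obtain ⟨v, hv, hv₀, -⟩ := exists_common_zero (hf i₀).pos (hf i₀).pos (hhom i₀) (hhom i₀)
        refine pencil hst hn hhom hv fun u => ?_
        rw [hsum]
        have h1 : MultGe (f i₀) v 1 := hv₀
        have := natDegree_lineP_of_mult (hhom i₀) h1 u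
        omega
      · have hd4 : d i₀ = 4 := by omega
        by_cases hsing : ∃ v : Fin 3 → k, v ≠ 0 ∧ MultGe (f i₀) v 2
        · obtain ⟨v, hv, hv₀⟩ := hsing
          refine pencil hst hn hhom hv fun u => ?_
          rw [hsum]
          have := natDegree_lineP_of_mult (hhom i₀) hv₀ u
          omega
        · push Not at hsing
          obtain ⟨b, τ, hgen, hdeg⟩ :=
            quartic hst (by rw [← hd4]; exact hhom i₀) (hf i₀).ne_zero hsing
          refine of_line hst hn hhom hgen ?_
          rw [hsum]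
          exact hdeg
    · have hemp : IsEmpty ι := not_nonempty_iff.mp hne
      refine pencil hst hn hhom (v := ![1, 0, 0]) ?_ fun u => ?_
      · intro h
        have := congrFun h 0
        simp at this
      · simp

end Pool.Agent.U840.DPC
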